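import Mathlib

/-! # Project GB (MP_694c7f_al, Ko-Park): braid groups of planar graphs without Theta_4 are genus 1

Part A (this file, first half): the objects of the final statement.
Part B (second half): the interfaces used by the modules.
-/

namespace GB



/-! ## Part A1: finite graphs -/

/-- A graph (loops and multiple edges allowed): vertices `V`, edges `E`; `fin e b` is the vertex at
the end `b` of the edge `e`. -/
structure Gr (V E : Type) where
  fin : E → Bool → V

/-- Half-edges: an edge with a chosen end. -/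
abbrev Dart (E : Type) := E × Bool

/-- The other half of the same edge. -/
def opp {E : Type} (d : Dart E) : Dart E := (d.1, !d.2)

/-- `opp` as a permutation of the half-edges. -/
def oppPerm (E : Type) : Equiv.Perm (Dart E) where
  toFun := opp
  invFun := opp
  left_inv d := by simp [opp]
  right_inv d := by simp [opp]

namespace Gr

variable {V E : Type} (G : Gr V E)

/-- The vertex of a half-edge. -/
def vt (d : Dart E) : V := G.fin d.1 d.2

/-- `IsWalk u l v`: the list of half-edges `l` is a walk from `u` to `v` (each half-edge is left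
from its own vertex, and traversed to the vertex of the opposite half-edge). -/
def IsWalk : V → List (Dart E) → V → Prop
  | u, [], v => u = v
  | u, d :: l, v => G.vt d = u ∧ IsWalk (G.vt (opp d)) l v

/-- The graph is connected (and has a vertex). -/
def Connected : Prop := Nonempty V ∧ ∀ u v, ∃ l, G.IsWalk u l v

/-- The list of all vertices on a walk starting at `u`. -/
def support (u : V) (l : List (Dart E)) : List V := u :: l.map (fun d => G.vt (opp d))

/-- A path: a walk which does not meet a vertex twice. -/
def IsPath (u : V) (l : List (Dart E)) (v : V) : Prop := G.IsWalk u l v ∧ (G.support u l).Nodup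

/-- `Γ` contains a subdivision of `Θ₄`: two different vertices joined by four paths, any two of
which have only their end vertices in common (and no edge in common). -/
def HasTheta4 : Prop :=
  ∃ (u v : V) (p : Fin 4 → List (Dart E)), u ≠ v ∧ (∀ i, G.IsPath u (p i) v) ∧
    ∀ i j, i ≠ j →
      (∀ x, x ∈ G.support u (p i) → x ∈ G.support u (p j) → x = u ∨ x = v) ∧
      (∀ d ∈ p i, ∀ d' ∈ p j, d.1 ≠ d'.1)

/-- The cycles of a permutation (fixed points included) as a quotient. -/
def Cyc {D : Type} (σ : Equiv.Perm D) : Type := Quotient (Equiv.Perm.SameCycle.setoid σ)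

/-- Planarity, in the form of a combinatorial embedding in the sphere: `σ` is a rotation system (it
turns around each vertex, so that its cycles are the vertices), the faces are the cycles of
`σ ∘ opp`, and Euler's formula `V + F = E + 2` holds.  A graph without edges is planar. -/
def Planar : Prop :=
  IsEmpty E ∨ ∃ σ : Equiv.Perm (Dart E), (∀ d d', G.vt d = G.vt d' ↔ σ.SameCycle d d') ∧
    Nat.card V + Nat.card (Cyc (σ * oppPerm E)) = Nat.card E + 2

end Gr

/-! ## Part A2: square complexes and their fundamental groups -/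

/-- A combinatorial complex with vertices `X`, oriented edges `Ed` (from `s a` to `t a`) and
quadrilateral 2-cells: `sq a b c d` says that there is a 2-cell with boundary `a b (c d)⁻¹`. -/
structure Cx where
  X : Type
  Ed : Type
  s : Ed → X
  t : Ed → X
  sq : Ed → Ed → Ed → Ed → Prop
  wf : ∀ a b c d, sq a b c d → s a = s c ∧ t a = s b ∧ t c = s d ∧ t b = t d

namespace Cx

variable (K : Cx)

/-- start of an oriented edge traversed forwards (`true`) or backwards (`false`) -/
def src (a : K.Ed × Bool) : K.X := if a.2 then K.s a.1 else K.t a.1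

/-- end of an oriented edge traversed forwards (`true`) or backwards (`false`) -/
def tgt (a : K.Ed × Bool) : K.X := if a.2 then K.t a.1 else K.s a.1

/-- edge paths -/
def IsWalk : K.X → List (K.Ed × Bool) → K.X → Prop
  | x, [], y => x = y
  | x, a :: w, y => K.src a = x ∧ IsWalk (K.tgt a) w y

/-- The elementary homotopies: cancelling a back-tracking, and pushing across a 2-cell. -/
inductive Elem : List (K.Ed × Bool) → List (K.Ed × Bool) → Prop
  | canc (a : K.Ed × Bool) : Elem [a, (a.1, !a.2)] []
  | sq (a b c d : K.Ed) (h : K.sq a b c d) : Elem [(a, true), (b, true)] [(c, true), (d, true)]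
  | sqi (a b c d : K.Ed) (h : K.sq a b c d) :
      Elem [(b, false), (a, false)] [(d, false), (c, false)]

/-- closed edge paths at `x` -/
def Loop (x : K.X) : Type := {w : List (K.Ed × Bool) // K.IsWalk x w x}

/-- one elementary homotopy between closed edge paths at `x` -/
def Step (x : K.X) (p q : K.Loop x) : Prop :=
  ∃ u v r r', p.1 = u ++ r ++ v ∧ q.1 = u ++ r' ++ v ∧ K.Elem r r'

/-- The edge path group `π₁(K,x)`: closed edge paths modulo the equivalence relation generated by
the elementary homotopies (`Quot` takes the generated equivalence relation). -/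
def Pi1 (x : K.X) : Type := Quot (K.Step x)

/-- reversed edge path -/
def rev (w : List (K.Ed × Bool)) : List (K.Ed × Bool) := (w.map (fun a => (a.1, !a.2))).reverse

variable {K}

theorem isWalk_append {x y z : K.X} {u v : List (K.Ed × Bool)} (h : K.IsWalk x u y)
    (h' : K.IsWalk y v z) : K.IsWalk x (u ++ v) z := by
  induction u generalizing x with
  | nil => simpa [IsWalk] using (show x = y from h) ▸ h'
  | cons a u ih => exact ⟨h.1, ih h.2⟩

theorem isWalk_append_iff {x z : K.X} {u v : List (K.Ed × Bool)} :
    K.IsWalk x (u ++ v) z ↔ ∃ y, K.IsWalk x u y ∧ K.IsWalk y v z := by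
  induction u generalizing x with
  | nil => simp [IsWalk]
  | cons a u ih => simp [IsWalk, ih, and_assoc]

theorem src_flip (a : K.Ed × Bool) : K.src (a.1, !a.2) = K.tgt a := by
  rcases a with ⟨a, _ | _⟩ <;> simp [src, tgt]

theorem tgt_flip (a : K.Ed × Bool) : K.tgt (a.1, !a.2) = K.src a := by
  rcases a with ⟨a, _ | _⟩ <;> simp [src, tgt]

theorem rev_cons (a : K.Ed × Bool) (w : List (K.Ed × Bool)) :
    K.rev (a :: w) = K.rev w ++ [(a.1, !a.2)] := by
  simp [rev]

theorem rev_append (u v : List (K.Ed × Bool)) : K.rev (u ++ v) = K.rev v ++ K.rev u := by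
  simp [rev]

theorem isWalk_rev {x y : K.X} {w : List (K.Ed × Bool)} (h : K.IsWalk x w y) :
    K.IsWalk y (K.rev w) x := by
  induction w generalizing x with
  | nil => exact (show x = y from h).symm
  | cons a w ih =>
    rw [rev_cons]
    refine isWalk_append (ih h.2) ⟨?_, ?_⟩
    · exact src_flip a
    · rw [tgt_flip]; exact h.1

theorem elem_rev {r r' : List (K.Ed × Bool)} (h : K.Elem r r') :
    K.Elem (K.rev r) (K.rev r') := by
  cases h with
  | canc a =>
    have : K.rev [a, (a.1, !a.2)] = [a, (a.1, !a.2)] := by simp [rev]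
    rw [this]; simpa [rev] using Elem.canc a
  | sq a b c d h => simpa [rev] using Elem.sqi a b c d h
  | sqi a b c d h => simpa [rev] using Elem.sq a b c d h

/-- class of a closed edge path -/
def cls {x : K.X} (w : List (K.Ed × Bool)) (h : K.IsWalk x w x) : K.Pi1 x :=
  Quot.mk _ ⟨w, h⟩

def Loop.mul {x : K.X} (p q : K.Loop x) : K.Loop x := ⟨p.1 ++ q.1, isWalk_append p.2 q.2⟩
def Loop.inv {x : K.X} (p : K.Loop x) : K.Loop x := ⟨K.rev p.1, isWalk_rev p.2⟩

/-- cancelling `rev w ++ w` -/
theorem rev_mul_self {x y : K.X} (w : List (K.Ed × Bool)) (h : K.IsWalk x w y)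
    (u v : List (K.Ed × Bool)) {z : K.X}
    (h1 : K.IsWalk z (u ++ (K.rev w ++ w) ++ v) z) (h2 : K.IsWalk z (u ++ v) z) :
    (Quot.mk (K.Step z) ⟨u ++ (K.rev w ++ w) ++ v, h1⟩ : K.Pi1 z)
      = Quot.mk (K.Step z) ⟨u ++ v, h2⟩ := by
  induction w generalizing x with
  | nil => 
    apply congrArg (Quot.mk (K.Step z))
    apply Subtype.ext
    simp [rev]
  | cons a w ih =>
    have hw : K.IsWalk z (u ++ (K.rev w ++ w) ++ v) z := by
      rw [rev_cons] at h1
      obtain ⟨y1, hy1, hy2⟩ := isWalk_append_iff.1 h1
      obtain ⟨y2, hy3, hy4⟩ := isWalk_append_iff.1 hy1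
      obtain ⟨y3, hy5, hy6⟩ := isWalk_append_iff.1 hy4
      obtain ⟨y4, hy7, hy8⟩ := isWalk_append_iff.1 hy5
      have e1 : K.tgt a = y4 := by
        have := hy8.1
        rw [src_flip] at this; exact this
      have e3 : K.IsWalk y4 w y1 := by rw [← e1]; exact hy6.2
      exact isWalk_append (isWalk_append hy3 (isWalk_append hy7 e3)) hy2
    refine Eq.trans (Quot.sound ?_) (ih h.2 hw)
    refine ⟨u ++ K.rev w, w ++ v, [(a.1, !a.2), a], [], ?_, ?_, ?_⟩
    · simp [rev]
    · simp
    · have := Elem.canc (K := K) (a.1, !a.2)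
      simpa using this

theorem step_rev {x : K.X} {p q : K.Loop x} (h : K.Step x p q) :
    K.Step x p.inv q.inv := by
  obtain ⟨u, v, r, r', h1, h2, h3⟩ := h
  refine ⟨K.rev v, K.rev u, K.rev r, K.rev r', ?_, ?_, elem_rev h3⟩
  · simp [Loop.inv, h1, rev_append, List.append_assoc]
  · simp [Loop.inv, h2, rev_append, List.append_assoc]

instance (x : K.X) : Group (K.Pi1 x) where
  mul := Quot.map₂ Loop.mul
    (by
      rintro p q q' ⟨u, v, r, r', h1, h2, h3⟩
      exact ⟨p.1 ++ u, v, r, r', by simp [Loop.mul, h1], by simp [Loop.mul, h2], h3⟩)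
    (by
      rintro p p' q ⟨u, v, r, r', h1, h2, h3⟩
      exact ⟨u, v ++ q.1, r, r', by simp [Loop.mul, h1], by simp [Loop.mul, h2], h3⟩)
  one := Quot.mk _ ⟨[], rfl⟩
  inv := Quot.map Loop.inv (fun _ _ h => step_rev h)
  mul_assoc := by
    rintro ⟨a⟩ ⟨b⟩ ⟨c⟩
    exact congrArg (Quot.mk (K.Step x)) (Subtype.ext (List.append_assoc _ _ _))
  one_mul := by
    rintro ⟨a⟩
    exact congrArg (Quot.mk (K.Step x)) (Subtype.ext (List.nil_append _))
  mul_one := by
    rintro ⟨a⟩
    exact congrArg (Quot.mk (K.Step x)) (Subtype.ext (List.append_nil _))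
  inv_mul_cancel := by
    rintro ⟨⟨w, h⟩⟩
    have h1 : K.IsWalk x ([] ++ (K.rev w ++ w) ++ []) x := by
      simpa using isWalk_append (isWalk_rev h) h
    have key := rev_mul_self w h [] [] h1 rfl
    refine Eq.trans ?_ key
    exact congrArg (Quot.mk (K.Step x)) (Subtype.ext (by simp [Loop.mul, Loop.inv]))

theorem cls_mul {x : K.X} {u v : List (K.Ed × Bool)} (hu : K.IsWalk x u x)
    (hv : K.IsWalk x v x) :
    (cls u hu : K.Pi1 x) * cls v hv = cls (u ++ v) (isWalk_append hu hv) := rfl

theorem cls_inv {x : K.X} {u : List (K.Ed × Bool)} (hu : K.IsWalk x u x) :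
    (cls u hu : K.Pi1 x)⁻¹ = cls (K.rev u) (isWalk_rev hu) := rfl

theorem cls_one {x : K.X} : (1 : K.Pi1 x) = cls [] rfl := rfl

theorem cls_eq_of_elem {x : K.X} {u v r r' : List (K.Ed × Bool)} (h : K.Elem r r')
    (h1 : K.IsWalk x (u ++ r ++ v) x) (h2 : K.IsWalk x (u ++ r' ++ v) x) :
    (cls _ h1 : K.Pi1 x) = cls _ h2 :=
  Quot.sound ⟨u, v, r, r', rfl, rfl, h⟩

end Cx

/-! ## Part A3: the Swiatkowski complex of a graph and the braid groups -/

/-- A combinatorial configuration of particles on a graph: the set of occupied vertices (at most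
one particle in each vertex) and the number of particles in each open edge. -/
@[ext] structure Conf (V E : Type) where
  occ : Finset V
  num : E →₀ ℕ

/-- number of particles -/
def Conf.card {V E : Type} (c : Conf V E) : ℕ := c.occ.card + c.num.sum (fun _ k => k)

/-- one particle on the edge `e` -/
noncomputable abbrev δ {E : Type} (e : E) : E →₀ ℕ := Finsupp.single e 1

/-- The (2-skeleton of the) Swiatkowski complex of all configuration spaces of the graph `Γ`.
Vertices: configurations.  Edges: pairs of a half-edge `d` at a vertex `v` and a configuration `c`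
in which `v` is free; the particle moves from `v` into the edge of `d`.
2-cells: two moves at two different vertices commute. -/
noncomputable def Gr.cx {V E : Type} [DecidableEq V] (G : Gr V E) : Cx where
  X := Conf V E
  Ed := {p : Dart E × Conf V E // G.vt p.1 ∉ p.2.occ}
  s p := ⟨insert (G.vt p.1.1) p.1.2.occ, p.1.2.num⟩
  t p := ⟨p.1.2.occ, p.1.2.num + δ p.1.1.1⟩
  sq a b c d := ∃ (x y : Dart E) (m : Conf V E), G.vt x ≠ G.vt y ∧ G.vt x ∉ m.occ ∧
    G.vt y ∉ m.occ ∧
    a.1 = (x, ⟨insert (G.vt y) m.occ, m.num⟩) ∧ b.1 = (y, ⟨m.occ, m.num + δ x.1⟩) ∧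
    c.1 = (y, ⟨insert (G.vt x) m.occ, m.num⟩) ∧ d.1 = (x, ⟨m.occ, m.num + δ y.1⟩)
  wf := by
    rintro a b c d ⟨x, y, m, h, hx, hy, ha, hb, hc, hd⟩
    simp only [ha, hb, hc, hd]
    refine ⟨?_, trivial, trivial, ?_⟩
    · rw [Finset.insert_comm]
    · rw [add_right_comm]

/-- The braid group of the graph `Γ` based at the configuration `c`: the fundamental group of the
Swiatkowski complex, which is a deformation retract of the configuration space of `Γ`.  The number
of strings is `c.card`. -/
abbrev BraidGroup {V E : Type} [DecidableEq V] (G : Gr V E) (c : Conf V E) : Type :=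
  G.cx.Pi1 c

/-- A group is genus 1 if it has a presentation in which every relator is a single commutator
`[u,v] = u v u⁻¹ v⁻¹` of two elements of the free group. -/
def Genus1 (G : Type) [Group G] : Prop :=
  ∃ (S : Type) (R : Set (FreeGroup S)), (∀ r ∈ R, ∃ u v : FreeGroup S, r = u * v * u⁻¹ * v⁻¹) ∧
    Nonempty (PresentedGroup R ≃* G)

end GB
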