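import Pool.Agent.Helper95.GB.Defs

/-! # Project GB: interfaces

* `PiD K x G`: the group `G` is the fundamental group of the square complex `K` at `x`.
* `DG`: graphs with a chosen base half-edge at each vertex; `DG.cx`: the reduced complex, whose
  vertices are the multisets of edges; `DG.PI`: the statement on 2-cycles.
* `PD`: planar graphs with a one-sided depth first search tree, encoded by positions in `ℕ`.
-/

namespace GB

open MvPolynomial

namespace Cx

variable (K : Cx)

/-- value of an edge path under a labelling of the edges by elements of a group -/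
def val {L : Type} [Group L] (l : K.Ed → L) : List (K.Ed × Bool) → L
  | [] => 1
  | a :: w => (if a.2 then l a.1 else (l a.1)⁻¹) * val l w

/-- the labelling is compatible with the 2-cells -/
def Lab {L : Type} [Group L] (l : K.Ed → L) : Prop :=
  ∀ a b c d, K.sq a b c d → l a * l b = l c * l d

end Cx

/-- `G` is the fundamental group of `K` at `x`: the closed edge paths at `x` represent all elements
of `G` (through the labelling `g`), and every compatible labelling in a group `L` induces a
homomorphism `G → L` on closed edge paths. -/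
structure PiD (K : Cx) (x : K.X) (G : Type) [Group G] where
  g : K.Ed → G
  sq : K.Lab g
  surj : ∀ γ : G, ∃ w, K.IsWalk x w x ∧ K.val g w = γ
  univ : ∀ (L : Type) [Group L] (l : K.Ed → L), K.Lab l →
    ∃ φ : G →* L, ∀ w, K.IsWalk x w x → φ (K.val g w) = K.val l w

/-! ## Graphs with base half-edges -/

/-- `V` vertices, `E` edges, `J` the half-edges which are not base half-edges: each vertex `v` has
exactly one further half-edge, its base half-edge, on the edge `be v`. -/
structure DG (V J E : Type) where
  vt : J → V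
  ed : J → E
  be : V → E

/-- alternating functions (values in a group without 2-torsion) -/
def Alt2 {J A : Type} [Neg A] (x : J → J → A) : Prop := ∀ i j, x j i = - x i j
def Alt3 {J A : Type} [Neg A] (y : J → J → J → A) : Prop :=
  (∀ i j k, y j i k = - y i j k) ∧ (∀ i j k, y i k j = - y i j k)
def Alt4 {J A : Type} [Neg A] (z : J → J → J → J → A) : Prop :=
  (∀ i j k l, z j i k l = - z i j k l) ∧ (∀ i j k l, z i k j l = - z i j k l) ∧
    (∀ i j k l, z i j l k = - z i j k l)

/-- exterior product of two functions -/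
def wedge {J A : Type} [Mul A] [Sub A] (z z' : J → A) : J → J → A :=
  fun i j => z i * z' j - z' i * z j

namespace DG

variable {V J E : Type} (S : DG V J E)

/-- The reduced complex: the vertices are the multisets of edges (where the particles are); the
edge `(j, M)` moves a particle through the vertex `vt j` from the base edge into the edge of `j`,
with the other particles at `M`; moves at different vertices commute. -/
noncomputable def cx : Cx where
  X := E →₀ ℕ
  Ed := J × (E →₀ ℕ)
  s p := p.2 + δ (S.be (S.vt p.1))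
  t p := p.2 + δ (S.ed p.1)
  sq a b c d := ∃ (i j : J) (M : E →₀ ℕ), S.vt i ≠ S.vt j ∧
    a = (i, M + δ (S.be (S.vt j))) ∧ b = (j, M + δ (S.ed i)) ∧
    c = (j, M + δ (S.be (S.vt i))) ∧ d = (i, M + δ (S.ed j))
  wf := by
    rintro a b c d ⟨i, j, M, h, rfl, rfl, rfl, rfl⟩
    exact ⟨add_right_comm _ _ _, add_right_comm _ _ _, add_right_comm _ _ _,
      add_right_comm _ _ _⟩

/-- the linear form: `θ j = X (ed j) - X (base edge of the vertex of j)` -/
noncomputable def th (j : J) : MvPolynomial E ℤ := X (S.ed j) - X (S.be (S.vt j))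

/-- 1-cycles -/
def Cyc1 [Fintype J] (z : J → MvPolynomial E ℤ) : Prop := ∑ j, S.th j * z j = 0

noncomputable def bd2 [Fintype J] (x : J → J → MvPolynomial E ℤ) : J → MvPolynomial E ℤ :=
  fun j => ∑ i, S.th i * x i j

noncomputable def bd3 [Fintype J] (y : J → J → J → MvPolynomial E ℤ) :
    J → J → MvPolynomial E ℤ :=
  fun i j => ∑ k, S.th k * y k i j

/-- The 2-cycles of the reduced complex are generated by boundaries of cubes and by products of two
1-cycles which use different vertices. -/
def PI [Fintype J] : Prop := ∀ 𝒮 : AddSubgroup (J → J → MvPolynomial E ℤ),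
  (∀ y : J → J → J → MvPolynomial E ℤ, Alt3 y →
    (∀ i j k, S.vt i = S.vt j ∨ S.vt j = S.vt k ∨ S.vt i = S.vt k → y i j k = 0) →
      S.bd3 y ∈ 𝒮) →
  (∀ z z' : J → MvPolynomial E ℤ, S.Cyc1 z → S.Cyc1 z' →
    (∀ i j, S.vt i = S.vt j → z i = 0 ∨ z' j = 0) → wedge z z' ∈ 𝒮) →
  ∀ x : J → J → MvPolynomial E ℤ, Alt2 x → (∀ i j, S.vt i = S.vt j → x i j = 0) →
    (∀ j, S.bd2 x j = 0) → x ∈ 𝒮

/-- integral flows (1-cycles with constant coefficients), described by duality -/
def Harm1 [Fintype J] (c : J → ℤ) : Prop :=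
  ∀ u : E → ℤ, ∑ k, c k * (u (S.ed k) - u (S.be (S.vt k))) = 0
def Harm2 [Fintype J] (c : J → J → ℤ) : Prop := ∀ j, S.Harm1 (fun k => c k j)
def Harm3 [Fintype J] (c : J → J → J → ℤ) : Prop := ∀ i j, S.Harm1 (fun k => c k i j)

/-- Planarity property used for the 2-cycles: an alternating integral 2-flow without components at
one vertex is a sum of exterior products of flows using different vertices. -/
def PLprop [Fintype J] : Prop := ∀ ω : J → J → ℤ, Alt2 ω → S.Harm2 ω →
  (∀ i j, S.vt i = S.vt j → ω i j = 0) →
  ω ∈ AddSubgroup.closure {w : J → J → ℤ | ∃ c c' : J → ℤ, S.Harm1 c ∧ S.Harm1 c' ∧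
    (∀ i j, S.vt i = S.vt j → c i = 0 ∨ c' j = 0) ∧ w = wedge c c'}

/-- functions on the edges which are constant on the components of the graph minus the vertex `v` -/
def Loc (v : V) (u : E → ℤ) : Prop := ∀ k, S.vt k ≠ v → u (S.ed k) = u (S.be (S.vt k))

/-- `τ` is an alternating 3-tensor at the vertex `v`, with the sum over each component zero. -/
def Lharm3 [Fintype J] (v : V) (τ : J → J → J → ℤ) : Prop :=
  Alt3 τ ∧ (∀ i j k, S.vt i ≠ v → τ i j k = 0) ∧
  ∀ u : E → ℤ, S.Loc v u → ∀ i j, ∑ k, τ k i j * (u (S.ed k) - u (S.be (S.vt k))) = 0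

/-- no Theta_4: every local alternating 3-tensor is the local part of a global one, which has no
local part at the other vertices. -/
def THprop [Fintype J] : Prop := ∀ (v : V) (τ : J → J → J → ℤ), S.Lharm3 v τ →
  ∃ Φ : J → J → J → ℤ, Alt3 Φ ∧ S.Harm3 Φ ∧
    (∀ i j k, S.vt i = v → S.vt j = v → S.vt k = v → Φ i j k = τ i j k) ∧
    (∀ i j k, S.vt i ≠ v → S.vt j = S.vt i → S.vt k = S.vt i → Φ i j k = 0)

/-- adjacency of edges at a vertex different from `v` -/
def Adj (v : V) (e e' : E) : Prop :=
  ∃ k, S.vt k ≠ v ∧ ((e = S.ed k ∧ e' = S.be (S.vt k)) ∨ (e = S.be (S.vt k) ∧ e' = S.ed k))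

/-- each component of the graph minus `v` contains a half-edge at `v` -/
def Conn : Prop := ∀ (v : V) (e : E), ∃ e', (e' = S.be v ∨ ∃ k, S.vt k = v ∧ e' = S.ed k) ∧
  Relation.ReflTransGen (S.Adj v) e' e

/-- integral chains `q e` with boundary `e - st` -/
def Qdata [Fintype J] (st : E) (q : E → J → ℤ) : Prop := q st = 0 ∧
  ∀ (e : E) (u : E → ℤ), ∑ k, q e k * (u (S.ed k) - u (S.be (S.vt k))) = u e - u st

/-! ### Theta_4 in a `DG` -/

/-- vertex and edge of a half-edge (base half-edges are `inr v`) -/
def dv : J ⊕ V → V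
  | .inl j => S.vt j
  | .inr v => v
def de : J ⊕ V → E
  | .inl j => S.ed j
  | .inr v => S.be v

/-- walks: lists of pairs of different half-edges of the same edge -/
def IsWalk : V → List ((J ⊕ V) × (J ⊕ V)) → V → Prop
  | u, [], v => u = v
  | u, p :: l, v => S.dv p.1 = u ∧ S.de p.1 = S.de p.2 ∧ p.1 ≠ p.2 ∧ IsWalk (S.dv p.2) l v

def support (u : V) (l : List ((J ⊕ V) × (J ⊕ V))) : List V := u :: l.map (fun p => S.dv p.2)

def HasTheta4 : Prop :=
  ∃ (u v : V) (p : Fin 4 → List ((J ⊕ V) × (J ⊕ V))), u ≠ v ∧
    (∀ i, S.IsWalk u (p i) v ∧ (S.support u (p i)).Nodup) ∧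
    ∀ i j, i ≠ j →
      (∀ x, x ∈ S.support u (p i) → x ∈ S.support u (p j) → x = u ∨ x = v) ∧
      (∀ d ∈ p i, ∀ d' ∈ p j, S.de d.1 ≠ S.de d'.1)

/-- each edge has at most two half-edges -/
def TwoEnds : Prop := ∀ d d' d'' : J ⊕ V, S.de d = S.de d' → S.de d' = S.de d'' →
  d = d' ∨ d' = d'' ∨ d = d''

end DG

/-- Linear independence in the abelianization, tested on the homomorphisms to `ℤ`. -/
def Ind {G : Type} [Group G] {ι : Type} (T : ι → G) : Prop :=
  ∀ n : ι →₀ ℤ, (∀ φ : G →* Multiplicative ℤ,
    n.sum (fun i k => k * Multiplicative.toAdd (φ (T i))) = 0) → n = 0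

/-! ## Planar graphs with a one-sided DFS tree -/

/-- non-base half-edges: `t a` (the tree edge leading up to the vertex `a`), `m c`, `p c` (the two
ends of the chord `c`), `z k` (the far end of the root edge, if there is one) -/
inductive JJ (W C Z : Type)
  | t (a : W)
  | m (c : C)
  | p (c : C)
  | z (k : Z)
  deriving DecidableEq

/-- edges: root edge, tree edges, chords -/
inductive EE (W C : Type)
  | r
  | t (a : W)
  | c (c : C)
  deriving DecidableEq

instance {W C Z : Type} [Fintype W] [Fintype C] [Fintype Z] : Fintype (JJ W C Z) :=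
  Fintype.ofEquiv (W ⊕ C ⊕ C ⊕ Z)
    { toFun := fun
        | .inl a => .t a
        | .inr (.inl c) => .m c
        | .inr (.inr (.inl c)) => .p c
        | .inr (.inr (.inr k)) => .z k
      invFun := fun
        | .t a => .inl a
        | .m c => .inr (.inl c)
        | .p c => .inr (.inr (.inl c))
        | .z k => .inr (.inr (.inr k))
      left_inv := by rintro (a | c | c | k) <;> rfl
      right_inv := by rintro (a | c | c | k) <;> rfl }

instance {W C : Type} [Fintype W] [Fintype C] : Fintype (EE W C) :=
  Fintype.ofEquiv (Option (W ⊕ C))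
    { toFun := fun
        | none => .r
        | some (.inl a) => .t a
        | some (.inr c) => .c c
      invFun := fun
        | .r => none
        | .t a => some (.inl a)
        | .c c => some (.inr c)
      left_inv := by rintro (_ | a | c) <;> rfl
      right_inv := by rintro (_ | a | c) <;> rfl }

/-- A planar graph with a rooted DFS tree all of whose chords are on the same side.
The vertices are `none` (the root) and `some a`; `par a` is the parent of `a`; the chord `c` has
its ends at `mv c` (minus) and `pv c` (plus); `zv k` is the vertex of the far end of the root edge.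
Walking around the tree (contour) meets the half-edges at the positions `lo (some a)` (going up to
`a`), `hi v` (the base half-edge of `v`, going down), `pm c`, `pp c`, `pz k`. -/
structure PD (W C Z : Type) where
  par : W → Option W
  mv : C → Option W
  pv : C → Option W
  zv : Z → Option W
  lo : Option W → ℕ
  hi : Option W → ℕ
  pm : C → ℕ
  pp : C → ℕ
  pz : Z → ℕ

namespace PD

variable {W C Z : Type} (P : PD W C Z)

def vt : JJ W C Z → Option W
  | .t a => P.par a
  | .m c => P.mv c
  | .p c => P.pv c
  | .z k => P.zv k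

def ed : JJ W C Z → EE W C
  | .t a => .t a
  | .m c => .c c
  | .p c => .c c
  | .z _ => .r

def be : Option W → EE W C
  | none => .r
  | some a => .t a

/-- the position of a half-edge -/
def pos : JJ W C Z → ℕ
  | .t a => P.lo (some a)
  | .m c => P.pm c
  | .p c => P.pp c
  | .z k => P.pz k

/-- the last position of the branch of a half-edge -/
def en : JJ W C Z → ℕ
  | .t a => P.hi (some a)
  | .m c => P.pm c
  | .p c => P.pp c
  | .z k => P.pz k

/-- the underlying graph -/
def dg : DG (Option W) (JJ W C Z) (EE W C) where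
  vt := P.vt
  ed := ed
  be := be

/-- the axioms -/
structure Ax : Prop where
  zz : ∀ k k' : Z, k = k'
  a0 : ∀ v, P.lo v < P.hi v
  a1 : ∀ j, P.lo (P.vt j) < P.pos j ∧ P.pos j < P.hi (P.vt j)
  a2 : ∀ a, P.hi (some a) < P.hi (P.par a)
  a3 : ∀ v j, P.lo v < P.pos j → P.pos j < P.hi v →
    P.lo v ≤ P.lo (P.vt j) ∧ P.hi (P.vt j) ≤ P.hi v
  a4 : Function.Injective P.pos
  a5 : ∀ c, P.lo (P.pv c) ≤ P.lo (P.mv c) ∧ P.hi (P.mv c) ≤ P.hi (P.pv c) ∧ P.pm c < P.pp c
  a6 : ∀ c c', P.pm c < P.pm c' → P.pm c' < P.pp c → P.pp c' < P.pp c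
  a7 : ∀ c k, ¬ (P.pm c < P.pz k ∧ P.pz k < P.pp c)
  a8 : ∀ v j, P.pos j ≠ P.hi v

/-- `x` is at `v` or beyond `v` -/
def bey (v : Option W) (x : JJ W C Z) : Prop := P.lo v < P.pos x ∧ P.pos x < P.hi v

/-- `x` is in the branch of `j` -/
def inb (j x : JJ W C Z) : Prop := P.pos j ≤ P.pos x ∧ P.pos x ≤ P.en j

/-- generalized chords: the chords, and the root edge if it is not a leaf -/
abbrev Ch (C Z : Type) := C ⊕ Z

/-- minus end of a generalized chord -/
def mi : Ch C Z → JJ W C Z
  | .inl c => .m c
  | .inr k => .z k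

/-- plus end of a generalized chord (`none`: the root) -/
def pl : Ch C Z → Option (JJ W C Z)
  | .inl c => some (.p c)
  | .inr _ => none

/-- the plus end is strictly below `v` -/
def belowP (v : Option W) (e : Ch C Z) : Prop := ∀ x, (pl e : Option (JJ W C Z)) = some x → ¬ P.bey v x

/-- the branch `j` at `v` is low: some generalized chord goes from the branch to below `v` -/
def low (v : Option W) (j : JJ W C Z) : Prop := ∃ e : Ch C Z, P.inb j (mi e) ∧ P.belowP v e

/-- nonlow branches at `v` which are not plus ends -/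
def NL (v : Option W) (j : JJ W C Z) : Prop := P.vt j = v ∧ (∀ c, j ≠ .p c) ∧ ¬ P.low v j

/-- the location `x` is in the component of the root in the graph minus `v` -/
def LowC (v : Option W) (x : JJ W C Z) : Prop := ¬ P.bey v x ∨
  ∃ j, P.vt j = v ∧ P.inb j x ∧
    (((∀ c, j ≠ .p c) ∧ P.low v j) ∨ ∃ c i, j = .p c ∧ P.vt i = v ∧ P.inb i (.m c) ∧ P.low v i)

/-- the location `x` is in the component of the nonlow branch `i` in the graph minus `v` -/
def CompN (v : Option W) (i x : JJ W C Z) : Prop := P.NL v i ∧
  (P.inb i x ∨ ∃ c, x = .p c ∧ P.vt x = v ∧ P.inb i (.m c))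

end PD

end GB
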