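import Pool.Agent.Helper95.GB.IN.Final
import Pool.Agent.Helper95.GB.RD.Red
import Pool.Agent.Helper95.GB.RD.Theta
import Pool.Agent.Helper95.GB.RD.Triv
import Pool.Agent.Helper95.GB.PX.RootZ
import Pool.Agent.Helper95.GB.PX.RootQ

/-! # GB/Main: braid groups of planar graphs without Theta_4 are genus 1 (stub, prove in place)

`of_rz`: `D : PiD G.cx c (BraidGroup G c)` by `pid_pi1`; if `c.card = 0`: `genus1_trivial`, `triv_zero`.  Otherwise `pid_red` gives `M` with
`∑ M = c.card = n ≥ 1` and a `PiD P.dg.cx M _`; `reach` and `pid_base` (along the reversed walk: `Cx.isWalk_rev`) give a `PiD P.dg.cx (st n) _`;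
`Ax.core` with `hθ`: `Rz.theta`.
`planar_genus1`: if `E` is empty: `genus1_trivial`, `triv_empty`.  Otherwise take `σ` from `Planar`.  If some half-edge is alone at its vertex:
`root_q`, otherwise `root_z`; `of_rz`.  (`Fintype.ofFinite`, classical decidability.)
-/

set_option autoImplicit false

namespace GB

theorem of_rz {V E W C Z : Type} [DecidableEq V] [Fintype W] [Fintype C] [Fintype Z]
    {G : Gr V E} {P : PD W C Z} (h : P.Ax) (R : Rz G P.dg) (hθ : ¬ G.HasTheta4)
    (c : Conf V E) : Genus1 (BraidGroup G c) := by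
  by_cases h0 : c.card = 0
  · exact genus1_trivial G.cx c (triv_zero G c h0)
  · obtain ⟨D⟩ := pid_pi1 G.cx c
    obtain ⟨M, hM, ⟨D'⟩⟩ := R.pid_red c D
    obtain ⟨w, hw⟩ := h.reach M
    rw [hM] at hw
    obtain ⟨D''⟩ := pid_base D' (Cx.isWalk_rev hw)
    exact h.core (fun hh => hθ (R.theta hh)) (Nat.one_le_iff_ne_zero.2 h0) D''

theorem planar_genus1 {V E : Type} [Finite E] [DecidableEq V] (G : Gr V E)
    (hc : G.Connected) (hP : G.Planar) (hθ : ¬ G.HasTheta4) (c : Conf V E) :
    Genus1 (BraidGroup G c) := by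
  classical
  rcases isEmpty_or_nonempty E with hE | hE
  · exact genus1_trivial G.cx c (triv_empty G c)
  · rcases hP with hE' | ⟨σ, hσ, hEu⟩
    · exact absurd hE' (not_isEmpty_iff.2 hE)
    · haveI : Fintype E := Fintype.ofFinite E
      by_cases hq : ∃ q : Dart E, ∀ d', G.vt d' = G.vt q → d' = q
      · obtain ⟨q, hq⟩ := hq
        obtain ⟨W, C, _, _, P, hP, ⟨R⟩⟩ := PX.root_q hc hσ hEu q hq
        exact of_rz hP R hθ c
      · push Not at hq
        obtain ⟨W, C, _, _, P, hP, ⟨R⟩⟩ := PX.root_z hc hE hσ hEu hq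
        exact of_rz hP R hθ c

end GB
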