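import Pool.Agent.Helper95.GB.Main
import Pool.Agent.Helper95.GB.KT.Final

/-! # MP_694c7f_al: commutator relators in braid groups of graphs

The braid groups of all planar graphs without `Theta_4` are genus 1 (the conjecture of Ko and Park), and
planarity cannot be omitted: `K_{3,3}` does not contain `Theta_4`, but its 2-string braid group is not genus 1. -/

set_option autoImplicit false

namespace RetiredPlanarGenusOne

open GB

theorem result :
    (∀ (V E : Type) [Finite E] [DecidableEq V] (G : Gr V E), G.Connected → G.Planar →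
      ¬ G.HasTheta4 → ∀ c : Conf V E, Genus1 (BraidGroup G c)) ∧
    (KT.K33.Connected ∧ ¬ KT.K33.HasTheta4 ∧
      ∃ c : Conf (Bool × Fin 3) (Fin 3 × Fin 3), c.card = 2 ∧
        ¬ Genus1 (BraidGroup KT.K33 c)) :=
  ⟨fun _ _ _ _ G hc hP hθ c => planar_genus1 G hc hP hθ c,
    KT.conn, KT.noTheta, KT.notGenus⟩

end RetiredPlanarGenusOne
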